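import Pool.Agent.helper37.CZ.Spec

set_option autoImplicit false

open scoped Matrix Topology ComplexConjugate
open Filter

namespace Pool.Agent.CZ

theorem BLD_det {ι κ : Type} [Fintype ι] [DecidableEq ι] [Fintype κ] [DecidableEq κ] (e : κ ≃ ι)
    (M : Matrix ι ι ℂ) (A : Matrix κ κ ℂ) (h : ∀ i j, M (e i) (e j) = A i j) : M.det = A.det := by
  rw [← Matrix.det_submatrix_equiv_self e M]
  congr 1
  ext i j
  exact h i j

/-- the first corner -/
def BLD_e1 (k L N : ℕ) (h : 2 * L ≤ N) :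
    Fin L × Fin k ≃ {i : Fin N × Fin k // (i.1 : ℕ) < L} where
  toFun x := ⟨(⟨x.1, by have := x.1.2; omega⟩, x.2), x.1.2⟩
  invFun y := (⟨y.1.1, y.2⟩, y.1.2)
  left_inv x := rfl
  right_inv y := rfl

/-- the second corner -/
def BLD_e2 (k L N : ℕ) (h : 2 * L ≤ N) :
    Fin L × Fin k ≃ {i : {i : Fin N × Fin k // ¬ (i.1 : ℕ) < L} // N - L ≤ (i.1.1 : ℕ)} where
  toFun x := ⟨⟨(⟨N - L + x.1, by have := x.1.2; omega⟩, x.2), by show ¬ (N - L + (x.1 : ℕ) < L); omega⟩,
    by show N - L ≤ N - L + (x.1 : ℕ); omega⟩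
  invFun y := (⟨y.1.1.1 - (N - L), by have := y.1.1.1.2; have := y.2; omega⟩, y.1.1.2)
  left_inv x := by
    ext
    · show N - L + (x.1 : ℕ) - (N - L) = x.1
      omega
    · rfl
  right_inv y := by
    have hy := y.2
    apply Subtype.ext
    apply Subtype.ext
    apply Prod.ext
    · apply Fin.ext
      show N - L + ((y.1.1.1 : ℕ) - (N - L)) = y.1.1.1
      omega
    · rfl

theorem BLD : BLD_stmt := by
  intro k L N P Q hLN
  rw [Matrix.twoBlockTriangular_det _ (fun i : Fin N × Fin k => (i.1 : ℕ) < L)]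
  · congr 1
    · refine BLD_det (BLD_e1 k L N hLN) _ _ ?_
      rintro ⟨a, b⟩ ⟨c, d⟩
      have ha := a.2
      have hc := c.2
      show (if (a : ℕ) < L ∧ (c : ℕ) < L then P (a, b) (c, d) else _) = P (a, b) (c, d)
      rw [if_pos ⟨ha, hc⟩]
    · rw [Matrix.twoBlockTriangular_det _
        (fun i : {i : Fin N × Fin k // ¬ (i.1 : ℕ) < L} => N - L ≤ (i.1.1 : ℕ))]
      · have h1 : (Matrix.toSquareBlockProp (Matrix.toSquareBlockProp (mat N (fun p q =>
            if p.1 < L ∧ q.1 < L then P p q else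
            if N - L ≤ p.1 ∧ N - L ≤ q.1 then Q (p.1 - (N - L), p.2) (q.1 - (N - L), q.2) else
            if p = q then 1 else 0)) (fun i : Fin N × Fin k => ¬ (i.1 : ℕ) < L))
            (fun i : {i : Fin N × Fin k // ¬ (i.1 : ℕ) < L} => ¬ N - L ≤ (i.1.1 : ℕ))) = 1 := by
          ext ⟨⟨⟨a, b⟩, ha1⟩, ha2⟩ ⟨⟨⟨c, d⟩, hc1⟩, hc2⟩
          show (if (a : ℕ) < L ∧ (c : ℕ) < L then P (a, b) (c, d) else
            if N - L ≤ (a : ℕ) ∧ N - L ≤ (c : ℕ) then Q ((a : ℕ) - (N - L), b) ((c : ℕ) - (N - L), d) else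
            if ((a : ℕ), b) = ((c : ℕ), d) then (1 : ℂ) else 0) = _
          rw [if_neg (fun h => ha1 h.1), if_neg (fun h => ha2 h.1), Matrix.one_apply]
          have : (((a : ℕ), b) = ((c : ℕ), d)) ↔ ((⟨⟨(a, b), ha1⟩, ha2⟩ :
              {i : {i : Fin N × Fin k // ¬ (i.1 : ℕ) < L} // ¬ N - L ≤ (i.1.1 : ℕ)}) = ⟨⟨(c, d), hc1⟩, hc2⟩) := by
            simp only [Prod.mk.injEq, Subtype.mk.injEq, Fin.ext_iff]
          by_cases h : ((a : ℕ), b) = ((c : ℕ), d)
          · rw [if_pos h, if_pos (this.1 h)]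
          · rw [if_neg h, if_neg (fun h' => h (this.2 h'))]
        rw [h1, Matrix.det_one, mul_one]
        refine BLD_det (BLD_e2 k L N hLN) _ _ ?_
        rintro ⟨a, b⟩ ⟨c, d⟩
        show (if N - L + (a : ℕ) < L ∧ N - L + (c : ℕ) < L then _ else
            if N - L ≤ N - L + (a : ℕ) ∧ N - L ≤ N - L + (c : ℕ) then
              Q (N - L + (a : ℕ) - (N - L), b) (N - L + (c : ℕ) - (N - L), d) else _) = Q ((a : ℕ), b) ((c : ℕ), d)
        rw [if_neg (by omega), if_pos (by omega), Nat.add_sub_cancel_left, Nat.add_sub_cancel_left]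
      · rintro ⟨⟨a, b⟩, ha1⟩ ha2 ⟨⟨c, d⟩, hc1⟩ hc2
        have ha2' : ¬ N - L ≤ (a : ℕ) := ha2
        have hc2' : N - L ≤ (c : ℕ) := hc2
        have ha1' : ¬ (a : ℕ) < L := ha1
        show (if (a : ℕ) < L ∧ (c : ℕ) < L then P (a, b) (c, d) else
            if N - L ≤ (a : ℕ) ∧ N - L ≤ (c : ℕ) then Q ((a : ℕ) - (N - L), b) ((c : ℕ) - (N - L), d) else
            if ((a : ℕ), b) = ((c : ℕ), d) then (1 : ℂ) else 0) = 0
        rw [if_neg (fun h => ha1' h.1), if_neg (fun h => ha2' h.1), if_neg]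
        intro h
        have := congrArg Prod.fst h
        simp only at this
        omega
  · rintro ⟨a, b⟩ ha ⟨c, d⟩ hc
    have ha' : ¬ (a : ℕ) < L := ha
    have hc' : (c : ℕ) < L := hc
    show (if (a : ℕ) < L ∧ (c : ℕ) < L then P (a, b) (c, d) else
            if N - L ≤ (a : ℕ) ∧ N - L ≤ (c : ℕ) then Q ((a : ℕ) - (N - L), b) ((c : ℕ) - (N - L), d) else
            if ((a : ℕ), b) = ((c : ℕ), d) then (1 : ℂ) else 0) = 0
    rw [if_neg (fun h => ha' h.1), if_neg (by omega), if_neg]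
    intro h
    have := congrArg Prod.fst h
    simp only at this
    omega

end Pool.Agent.CZ
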