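import Pool.Agent.helper37.CZ.Spec

set_option autoImplicit false

open scoped Matrix Topology ComplexConjugate
open Filter

namespace Pool.Agent.CZ

theorem TR1_sum (s : ℝ) (hs : 0 < s) : Summable (fun j : ℤ => Real.exp (-(s * |(j : ℝ)|))) := by
  rw [summable_int_iff_summable_nat_and_neg]
  have h : Summable (fun n : ℕ => Real.exp (n * (-s))) := Real.summable_exp_nat_mul_iff.2 (by linarith)
  constructor
  · refine h.congr fun n => ?_
    have : |(((n : ℕ) : ℤ) : ℝ)| = n := by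
      rw [Int.cast_natCast, Nat.abs_cast]
    rw [this]
    congr 1
    ring
  · refine h.congr fun n => ?_
    have : |((-((n : ℕ) : ℤ) : ℤ) : ℝ)| = n := by
      rw [Int.cast_neg, Int.cast_natCast, abs_neg, Nat.abs_cast]
    rw [this]
    congr 1
    ring

section

variable {X : Type} [TopologicalSpace X] [CompactSpace X] {A : Type} [CStarAlgebra A]

/-- the relations between the Fourier coefficients -/
def TR1_R (c : ℤ → A →ₗ[ℂ] C(X, ℂ)) (s : ℝ) (t : A × A × A) : Prop :=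
  ∀ j : ℤ, c j t.2.1 = ((Real.exp (s * j) : ℝ) : ℂ) • c j t.1 ∧
    c j t.2.2 = ((Real.exp (-(s * j)) : ℝ) : ℂ) • c j t.1

theorem TR1_R_sub (c : ℤ → A →ₗ[ℂ] C(X, ℂ)) (s : ℝ) (t t' : A × A × A) (h : TR1_R c s t) (h' : TR1_R c s t') :
    TR1_R c s (t - t') := by
  intro j
  obtain ⟨h1, h2⟩ := h j
  obtain ⟨h3, h4⟩ := h' j
  constructor
  · show c j (t.2.1 - t'.2.1) = _ • c j (t.1 - t'.1)
    rw [map_sub, map_sub, h1, h3, smul_sub]
  · show c j (t.2.2 - t'.2.2) = _ • c j (t.1 - t'.1)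
    rw [map_sub, map_sub, h2, h4, smul_sub]

theorem TR1_cont (c : ℤ → A →ₗ[ℂ] C(X, ℂ)) (hc : ∀ j a, ‖c j a‖ ≤ ‖a‖) (j : ℤ) : Continuous (c j) :=
  AddMonoidHomClass.continuous_of_bound (c j) 1 fun x => by rw [one_mul]; exact hc j x

theorem TR1_bound (c : ℤ → A →ₗ[ℂ] C(X, ℂ)) (hc : ∀ j a, ‖c j a‖ ≤ ‖a‖) (s : ℝ) (t : A × A × A)
    (h : TR1_R c s t) (j : ℤ) : ‖c j t.1‖ ≤ ‖t‖ * Real.exp (-(s * |(j : ℝ)|)) := by
  obtain ⟨h1, h2⟩ := h j
  have hn1 : ‖t.2.1‖ ≤ ‖t‖ := le_trans (norm_fst_le t.2) (norm_snd_le t)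
  have hn2 : ‖t.2.2‖ ≤ ‖t‖ := le_trans (norm_snd_le t.2) (norm_snd_le t)
  have key : ∀ (x : ℝ) (v : A), c j v = ((Real.exp x : ℝ) : ℂ) • c j t.1 → ‖v‖ ≤ ‖t‖ →
      ‖c j t.1‖ ≤ ‖t‖ * Real.exp (-x) := by
    intro x v hv hvt
    have e1 : ‖c j v‖ = Real.exp x * ‖c j t.1‖ := by
      rw [hv, norm_smul, Complex.norm_real, Real.norm_of_nonneg (Real.exp_pos x).le]
    have e2 : Real.exp x * ‖c j t.1‖ ≤ ‖t‖ := by
      rw [← e1]
      exact le_trans (hc j v) hvt
    have e3 := mul_le_mul_of_nonneg_right e2 (Real.exp_pos (-x)).le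
    have e4 : Real.exp x * ‖c j t.1‖ * Real.exp (-x) = ‖c j t.1‖ := by
      have : Real.exp x * Real.exp (-x) = 1 := by rw [← Real.exp_add, add_neg_cancel, Real.exp_zero]
      calc Real.exp x * ‖c j t.1‖ * Real.exp (-x) = (Real.exp x * Real.exp (-x)) * ‖c j t.1‖ := by ring
        _ = _ := by rw [this, one_mul]
    rwa [e4] at e3
  rcases le_total 0 (j : ℝ) with hj | hj
  · rw [abs_of_nonneg hj]
    exact key _ _ h1 hn1
  · rw [abs_of_nonpos hj]
    have := key _ _ h2 hn2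
    have e : -(s * -(j : ℝ)) = -(-(s * (j : ℝ))) := by ring
    rw [e]
    exact this

theorem TR1_term (ι : C(X, ℂ) →⋆ₐ[ℂ] A) (u : unitary A) (f : C(X, ℂ)) (j : ℤ) :
    ‖ι f * up u j‖ ≤ ‖f‖ := by
  unfold up
  rw [CStarRing.norm_mul_coe_unitary]
  exact NonUnitalStarAlgHom.norm_apply_le ι f

/-- generators -/
def TR1_G (ι : C(X, ℂ) →⋆ₐ[ℂ] A) (u : unitary A) (s : ℝ) : Set (A × A × A) :=
  {t : A × A × A | ∃ (f : C(X, ℂ)) (j : ℤ), t = (ι f * up u j,
    ((Real.exp (s * j) : ℝ) : ℂ) • (ι f * up u j),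
    ((Real.exp (-(s * j)) : ℝ) : ℂ) • (ι f * up u j))}

theorem TR1_one (ι : C(X, ℂ) →⋆ₐ[ℂ] A) (u : unitary A) (s : ℝ) : (1 : A × A × A) ∈ TR1_G ι u s := by
  refine ⟨1, 0, ?_⟩
  have h : ι 1 * up u 0 = 1 := by
    rw [map_one, one_mul]
    unfold up
    rw [zpow_zero]
    rfl
  rw [h]
  simp only [Int.cast_zero, mul_zero, neg_zero, Real.exp_zero, Complex.ofReal_one, one_smul]
  rfl

theorem TR1_mul (α : X ≃ₜ X) (ι : C(X, ℂ) →⋆ₐ[ℂ] A) (u : unitary A)
    (hex : ∀ (n : ℤ) (f : C(X, ℂ)), up u n * ι f = ι (sh α (-n) f) * up u n)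
    (s : ℝ) (a b : A × A × A) (ha : a ∈ TR1_G ι u s) (hb : b ∈ TR1_G ι u s) : a * b ∈ TR1_G ι u s := by
  obtain ⟨f, m, rfl⟩ := ha
  obtain ⟨g, n, rfl⟩ := hb
  refine ⟨f * sh α (-m) g, m + n, ?_⟩
  have h : ι (f * sh α (-m) g) * up u (m + n) = (ι f * up u m) * (ι g * up u n) := by
    have h1 : up u (m + n) = up u m * up u n := by
      unfold up
      rw [zpow_add]
      rfl
    calc ι (f * sh α (-m) g) * up u (m + n) = ι f * (ι (sh α (-m) g) * up u m) * up u n := by
          rw [h1, map_mul]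
          simp only [mul_assoc]
      _ = ι f * (up u m * ι g) * up u n := by rw [hex]
      _ = _ := by simp only [mul_assoc]
  rw [h]
  have e1 : (Real.exp (s * ((m + n : ℤ) : ℝ)) : ℝ) = Real.exp (s * m) * Real.exp (s * n) := by
    rw [← Real.exp_add, Int.cast_add, mul_add]
  have e2 : (Real.exp (-(s * ((m + n : ℤ) : ℝ))) : ℝ) = Real.exp (-(s * m)) * Real.exp (-(s * n)) := by
    rw [← Real.exp_add, Int.cast_add, mul_add, neg_add]
  rw [e1, e2, Complex.ofReal_mul, Complex.ofReal_mul]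
  show (_, _, _) = (_, _, _)
  refine Prod.ext rfl (Prod.ext ?_ ?_)
  · show _ • _ * _ • _ = _
    rw [smul_mul_smul_comm]
  · show _ • _ * _ • _ = _
    rw [smul_mul_smul_comm]

theorem TR1_closure (α : X ≃ₜ X) (ι : C(X, ℂ) →⋆ₐ[ℂ] A) (u : unitary A)
    (hex : ∀ (n : ℤ) (f : C(X, ℂ)), up u n * ι f = ι (sh α (-n) f) * up u n)
    (s : ℝ) (a : A × A × A) (ha : a ∈ Submonoid.closure (TR1_G ι u s)) : a ∈ TR1_G ι u s := by
  induction ha using Submonoid.closure_induction with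
  | mem x hx => exact hx
  | one => exact TR1_one ι u s
  | mul x y _ _ hx hy => exact TR1_mul α ι u hex s x y hx hy

theorem TR1_adj (α : X ≃ₜ X) (ι : C(X, ℂ) →⋆ₐ[ℂ] A) (u : unitary A)
    (hex : ∀ (n : ℤ) (f : C(X, ℂ)), up u n * ι f = ι (sh α (-n) f) * up u n)
    (c : ℤ → A →ₗ[ℂ] C(X, ℂ)) (cval : ∀ j k f, c j (ι f * up u k) = if j = k then f else 0)
    (s : ℝ) (t : A × A × A) (ht : t ∈ Algebra.adjoin ℂ (TR1_G ι u s)) :
    TR1_R c s t ∧ Rep ι u (fun j => c j t.1) t.1 := by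
  have ht' : t ∈ Submodule.span ℂ (Submonoid.closure (TR1_G ι u s) : Set (A × A × A)) := by
    rw [← Algebra.adjoin_eq_span]
    exact ht
  refine Submodule.span_induction (p := fun t _ => TR1_R c s t ∧ Rep ι u (fun j => c j t.1) t.1) ?_ ?_ ?_ ?_ ht'
  · intro x hx
    obtain ⟨f, k, rfl⟩ := TR1_closure α ι u hex s x hx
    constructor
    · intro j
      constructor
      · show c j (_ • _) = _ • c j (ι f * up u k)
        rw [map_smul, cval]
        by_cases h : j = k
        · rw [h]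
        · rw [if_neg h, smul_zero, smul_zero]
      · show c j (_ • _) = _ • c j (ι f * up u k)
        rw [map_smul, cval]
        by_cases h : j = k
        · rw [h]
        · rw [if_neg h, smul_zero, smul_zero]
    · show HasSum (fun j => ι (c j (ι f * up u k)) * up u j) (ι f * up u k)
      have := hasSum_single (f := fun j => ι (c j (ι f * up u k)) * up u j) k (by
        intro j hj
        show ι (c j (ι f * up u k)) * up u j = 0
        rw [cval, if_neg hj, map_zero, zero_mul])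
      have e : ι (c k (ι f * up u k)) * up u k = ι f * up u k := by rw [cval, if_pos rfl]
      rwa [e] at this
  · constructor
    · intro j
      constructor
      · show c j 0 = _ • c j 0
        rw [map_zero, smul_zero]
      · show c j 0 = _ • c j 0
        rw [map_zero, smul_zero]
    · show HasSum (fun j => ι (c j 0) * up u j) 0
      simp only [map_zero, zero_mul]
      exact hasSum_zero
  · rintro x y _ _ ⟨h1, h2⟩ ⟨h3, h4⟩
    constructor
    · intro j
      obtain ⟨a1, a2⟩ := h1 j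
      obtain ⟨a3, a4⟩ := h3 j
      constructor
      · show c j (x.2.1 + y.2.1) = _ • c j (x.1 + y.1)
        rw [map_add, map_add, a1, a3, smul_add]
      · show c j (x.2.2 + y.2.2) = _ • c j (x.1 + y.1)
        rw [map_add, map_add, a2, a4, smul_add]
    · show HasSum (fun j => ι (c j (x.1 + y.1)) * up u j) (x.1 + y.1)
      have e : (fun j => ι (c j (x.1 + y.1)) * up u j) =
          fun j => (ι (c j x.1) * up u j + ι (c j y.1) * up u j) := by
        funext j
        rw [map_add, map_add, add_mul]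
      rw [e]
      exact HasSum.add h2 h4
  · rintro z x _ ⟨h1, h2⟩
    constructor
    · intro j
      obtain ⟨a1, a2⟩ := h1 j
      constructor
      · show c j (z • x.2.1) = _ • c j (z • x.1)
        rw [map_smul, map_smul, a1, smul_comm]
      · show c j (z • x.2.2) = _ • c j (z • x.1)
        rw [map_smul, map_smul, a2, smul_comm]
    · show HasSum (fun j => ι (c j (z • x.1)) * up u j) (z • x.1)
      have e : (fun j => ι (c j (z • x.1)) * up u j) = fun j => z • (ι (c j x.1) * up u j) := by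
        funext j
        rw [map_smul, map_smul, smul_mul_assoc]
      rw [e]
      exact HasSum.const_smul z h2

/-- the sum of the terms is bounded by the norm -/
theorem TR1_summ (ι : C(X, ℂ) →⋆ₐ[ℂ] A) (u : unitary A)
    (c : ℤ → A →ₗ[ℂ] C(X, ℂ)) (hc : ∀ j a, ‖c j a‖ ≤ ‖a‖) (s : ℝ) (hs : 0 < s) (t : A × A × A)
    (h : TR1_R c s t) :
    Summable (fun j => ι (c j t.1) * up u j) ∧
      ‖∑' j, ι (c j t.1) * up u j‖ ≤ ‖t‖ * ∑' j : ℤ, Real.exp (-(s * |(j : ℝ)|)) := by
  have hb : ∀ j, ‖ι (c j t.1) * up u j‖ ≤ ‖t‖ * Real.exp (-(s * |(j : ℝ)|)) := fun j =>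
    le_trans (TR1_term ι u _ j) (TR1_bound c hc s t h j)
  have hS : HasSum (fun j : ℤ => ‖t‖ * Real.exp (-(s * |(j : ℝ)|)))
      (‖t‖ * ∑' j : ℤ, Real.exp (-(s * |(j : ℝ)|))) := (TR1_sum s hs).hasSum.mul_left _
  exact ⟨Summable.of_norm_bounded hS.summable hb, tsum_of_norm_bounded hS hb⟩

end

theorem TR1 (h1 : CEX_stmt) (_h2 : SMC_stmt) : TR1_stmt := by
  intro X _ _ α A _ ι u c hcov s hs t ht
  have hc := hcov.cnorm
  have hex := h1 X α A ι u c hcov
  have hadj := TR1_adj α ι u hex c hcov.cval s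
  have ht' : t ∈ closure ((Algebra.adjoin ℂ (TR1_G ι u s) : Subalgebra ℂ (A × A × A)) : Set (A × A × A)) := ht
  -- the relations hold on the closure
  have hclosed : IsClosed {t : A × A × A | TR1_R c s t} := by
    have e : {t : A × A × A | TR1_R c s t} = ⋂ j : ℤ,
        ({t : A × A × A | c j t.2.1 = ((Real.exp (s * j) : ℝ) : ℂ) • c j t.1} ∩
          {t : A × A × A | c j t.2.2 = ((Real.exp (-(s * j)) : ℝ) : ℂ) • c j t.1}) := by
      ext t
      simp only [Set.mem_ofPred_eq, Set.mem_iInter, Set.mem_inter_iff]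
      rfl
    rw [e]
    refine isClosed_iInter fun j => ?_
    have hcj := TR1_cont c hc j
    refine IsClosed.inter ?_ ?_
    · have hr : Continuous (fun t : A × A × A => ((Real.exp (s * j) : ℝ) : ℂ) • c j t.1) :=
        (hcj.comp continuous_fst).const_smul ((Real.exp (s * j) : ℝ) : ℂ)
      exact isClosed_eq (hcj.comp (continuous_fst.comp continuous_snd)) hr
    · have hr : Continuous (fun t : A × A × A => ((Real.exp (-(s * j)) : ℝ) : ℂ) • c j t.1) :=
        (hcj.comp continuous_fst).const_smul ((Real.exp (-(s * j)) : ℝ) : ℂ)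
      exact isClosed_eq (hcj.comp (continuous_snd.comp continuous_snd)) hr
  have hR : TR1_R c s t := by
    have := closure_minimal (t := {t : A × A × A | TR1_R c s t}) (fun t ht => (hadj t ht).1) hclosed
    exact this ht'
  obtain ⟨hsum, _⟩ := TR1_summ ι u c hc s hs t hR
  refine ⟨s, hs, fun j => c j t.1, ⟨‖t‖, TR1_bound c hc s t hR⟩, ?_⟩
  have heq : ∑' j, ι (c j t.1) * up u j = t.1 := by
    set K := ∑' j : ℤ, Real.exp (-(s * |(j : ℝ)|)) with hK
    have hK0 : 0 ≤ K := tsum_nonneg fun j => (Real.exp_pos _).le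
    have hsmall : ∀ ε : ℝ, 0 < ε → ‖(∑' j, ι (c j t.1) * up u j) - t.1‖ ≤ ε := by
      intro ε hε
      have hK1 : 0 < K + 1 := by linarith
      obtain ⟨t', ht1, ht2⟩ := Metric.mem_closure_iff.1 ht' (ε / (K + 1)) (div_pos hε hK1)
      obtain ⟨hR', hrep⟩ := hadj t' ht1
      have hsub := TR1_R_sub c s t t' hR hR'
      obtain ⟨hs1, hs2⟩ := TR1_summ ι u c hc s hs (t - t') hsub
      have hrep' : HasSum (fun j => ι (c j t'.1) * up u j) t'.1 := hrep
      have e1 : ∑' j, ι (c j (t - t').1) * up u j = (∑' j, ι (c j t.1) * up u j) - t'.1 := by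
        have e2 : (fun j => ι (c j (t - t').1) * up u j) =
            fun j => (ι (c j t.1) * up u j - ι (c j t'.1) * up u j) := by
          funext j
          show ι (c j (t.1 - t'.1)) * up u j = _
          rw [map_sub, map_sub, sub_mul]
        rw [e2]
        exact (hsum.hasSum.sub hrep').tsum_eq
      rw [e1] at hs2
      have hd : ‖t - t'‖ < ε / (K + 1) := by rwa [← dist_eq_norm]
      have hd1 : ‖t'.1 - t.1‖ ≤ ‖t - t'‖ := by
        rw [norm_sub_rev]
        exact norm_fst_le (t - t')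
      calc ‖(∑' j, ι (c j t.1) * up u j) - t.1‖
          = ‖((∑' j, ι (c j t.1) * up u j) - t'.1) + (t'.1 - t.1)‖ := by congr 1; abel
        _ ≤ ‖(∑' j, ι (c j t.1) * up u j) - t'.1‖ + ‖t'.1 - t.1‖ := norm_add_le _ _
        _ ≤ ‖t - t'‖ * K + ‖t - t'‖ := add_le_add hs2 hd1
        _ = ‖t - t'‖ * (K + 1) := by ring
        _ ≤ (ε / (K + 1)) * (K + 1) := mul_le_mul_of_nonneg_right hd.le hK1.le
        _ = ε := by field_simp
    have h0 : ‖(∑' j, ι (c j t.1) * up u j) - t.1‖ ≤ 0 :=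
      le_of_forall_pos_le_add fun ε hε => by
        rw [zero_add]
        exact hsmall ε hε
    exact sub_eq_zero.1 (norm_le_zero_iff.1 h0)
  show HasSum (fun j => ι (c j t.1) * up u j) t.1
  have := hsum.hasSum
  rwa [heq] at this

end Pool.Agent.CZ
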