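import Pool.Agent.helper37.CZ.Spec

set_option autoImplicit false

open scoped Matrix Topology ComplexConjugate
open Filter

namespace Pool.Agent.CZ

theorem KER_min {ι : Type} (F : Finset ι) (s : ι → ℝ) (hs : ∀ i, 0 < s i) :
    ∃ s0 : ℝ, 0 < s0 ∧ ∀ i ∈ F, s0 ≤ s i := by
  classical
  induction F using Finset.induction_on with
  | empty => exact ⟨1, one_pos, fun i hi => absurd hi (Finset.notMem_empty i)⟩
  | insert a F _ ih =>
    obtain ⟨s0, h0, h1⟩ := ih
    refine ⟨min s0 (s a), lt_min h0 (hs a), ?_⟩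
    intro i hi
    rcases Finset.mem_insert.1 hi with h | h
    · rw [h]
      exact min_le_right _ _
    · exact le_trans (min_le_left _ _) (h1 i h)

theorem KER_fin {n : ℕ} (F : ℤ × Fin n → ℂ) (a : Fin n → ℂ) (h : ∀ d, HasSum (fun r : ℤ => F (r, d)) (a d)) :
    HasSum F (∑ d, a d) := by
  have h1 : ∀ d ∈ (Finset.univ : Finset (Fin n)),
      HasSum (fun x : ℤ × Fin n => if x.2 = d then F x else 0) (a d) := by
    intro d _
    have hinj : Function.Injective (fun r : ℤ => ((r, d) : ℤ × Fin n)) := by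
      intro r r' hr
      exact congrArg Prod.fst hr
    rw [← hinj.hasSum_iff]
    · refine (h d).congr_fun ?_ |> fun x => x
      intro r
      simp
    · rintro ⟨r, d'⟩ hx
      have : d' ≠ d := by
        intro hd
        exact hx ⟨r, by rw [hd]⟩
      simp [this]
  have h2 := hasSum_sum h1
  have e : (fun x : ℤ × Fin n => ∑ d, if x.2 = d then F x else 0) = F := by
    funext x
    rw [Finset.sum_ite_eq]
    simp
  rwa [e] at h2

theorem KER_pow {X : Type} [TopologicalSpace X] (α : X ≃ₜ X) (m n : ℤ) (x : X) :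
    (α ^ m) ((α ^ n) x) = (α ^ (m + n)) x := by
  rw [zpow_add]
  rfl

theorem KER (h1 : SMC_stmt) (h2 : SMM_stmt) : KER_stmt := by
  intro X _ _ α A _ ι u c hcov n e he hsm
  have hmm := fun a b ha hb => (h2 X α A ι u c hcov a b ha hb).2
  refine ⟨?_, ?_, ?_, ?_⟩
  · intro p q
    exact (c (p.1 - q.1) (e p.2 q.2)).continuous.comp (α ^ p.1 : X ≃ₜ X).continuous
  · -- decay
    have hdec : ∀ ab : Fin n × Fin n, ∃ s : ℝ, 0 < s ∧ ∃ C : ℝ, 0 ≤ C ∧
        ∀ j : ℤ, ‖c j (e ab.1 ab.2)‖ ≤ C * Real.exp (-(s * |(j : ℝ)|)) := by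
      rintro ⟨a, b⟩
      obtain ⟨s, hs, f, ⟨C, hC⟩, hrep⟩ := hsm a b
      have hcf := h1 X α A ι u c hcov f (e a b) hrep
      refine ⟨s, hs, C, ?_, ?_⟩
      · have := hC 0
        simp only [Int.cast_zero, abs_zero, mul_zero, neg_zero, Real.exp_zero, mul_one] at this
        exact le_trans (norm_nonneg _) this
      · intro j
        show ‖c j (e a b)‖ ≤ _
        rw [hcf j]
        exact hC j
    choose s hs C hC0 hC using hdec
    obtain ⟨s0, hs0, hs1⟩ := KER_min Finset.univ s hs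
    refine ⟨∑ ab, C ab, Real.exp (-s0), Real.exp_pos _, ?_, Finset.sum_nonneg fun ab _ => hC0 ab, ?_⟩
    · rw [Real.exp_lt_one_iff]
      linarith
    · intro x p q
      have b1 : ‖c (p.1 - q.1) (e p.2 q.2) ((α ^ p.1) x)‖ ≤ ‖c (p.1 - q.1) (e p.2 q.2)‖ :=
        ContinuousMap.norm_coe_le_norm _ _
      have b2 := hC (p.2, q.2) (p.1 - q.1)
      have b3 : C (p.2, q.2) ≤ ∑ ab, C ab :=
        Finset.single_le_sum (fun ab _ => hC0 ab) (Finset.mem_univ (p.2, q.2))
      have b4 : Real.exp (-(s (p.2, q.2) * |((p.1 - q.1 : ℤ) : ℝ)|)) ≤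
          Real.exp (-s0) ^ (p.1 - q.1).natAbs := by
        rw [← Real.exp_nat_mul, Nat.cast_natAbs, Int.cast_abs]
        apply Real.exp_le_exp.2
        have := mul_le_mul_of_nonneg_right (hs1 (p.2, q.2) (Finset.mem_univ _))
          (abs_nonneg ((p.1 - q.1 : ℤ) : ℝ))
        linarith
      calc ‖c (p.1 - q.1) (e p.2 q.2) ((α ^ p.1) x)‖ ≤ ‖c (p.1 - q.1) (e p.2 q.2)‖ := b1
        _ ≤ C (p.2, q.2) * Real.exp (-(s (p.2, q.2) * |((p.1 - q.1 : ℤ) : ℝ)|)) := b2
        _ ≤ (∑ ab, C ab) * Real.exp (-s0) ^ (p.1 - q.1).natAbs :=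
          mul_le_mul b3 b4 (Real.exp_pos _).le (le_trans (hC0 _) b3)
  · -- idempotent
    intro x p q
    have key : ∀ d : Fin n, HasSum (fun r : ℤ => c (p.1 - r) (e p.2 d) ((α ^ p.1) x) *
        c (r - q.1) (e d q.2) ((α ^ r) x)) (c (p.1 - q.1) (e p.2 d * e d q.2) ((α ^ p.1) x)) := by
      intro d
      have hs := hmm (e p.2 d) (e d q.2) (hsm p.2 d) (hsm d q.2) (p.1 - q.1) ((α ^ p.1) x)
      have hs' := (Equiv.hasSum_iff (Equiv.subLeft p.1)).2 hs
      refine hs'.congr_fun ?_ |> fun x => x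
      intro r
      show c (p.1 - r) (e p.2 d) ((α ^ p.1) x) * c (r - q.1) (e d q.2) ((α ^ r) x) =
        c (p.1 - r) (e p.2 d) ((α ^ p.1) x) * c (p.1 - q.1 - (p.1 - r)) (e d q.2) ((α ^ (-(p.1 - r))) ((α ^ p.1) x))
      rw [KER_pow]
      have e1 : p.1 - q.1 - (p.1 - r) = r - q.1 := by ring
      have e2 : -(p.1 - r) + p.1 = r := by ring
      rw [e1, e2]
    have h := KER_fin (fun r : ℤ × Fin n => c (p.1 - r.1) (e p.2 r.2) ((α ^ p.1) x) *
        c (r.1 - q.1) (e r.2 q.2) ((α ^ r.1) x)) _ key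
    have e1 : ∑ d, c (p.1 - q.1) (e p.2 d * e d q.2) ((α ^ p.1) x) =
        c (p.1 - q.1) (e p.2 q.2) ((α ^ p.1) x) := by
      rw [← ContinuousMap.sum_apply, ← map_sum]
      have : ∑ d, e p.2 d * e d q.2 = e p.2 q.2 := by
        conv_rhs => rw [← he]
        rw [Matrix.mul_apply]
      rw [this]
    rw [e1] at h
    exact h
  · intro x p q
    show c (p.1 - q.1) (e p.2 q.2) ((α ^ p.1) (α x)) =
      c (p.1 + 1 - (q.1 + 1)) (e p.2 q.2) ((α ^ (p.1 + 1)) x)
    rw [add_sub_add_right_eq_sub]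
    have : (α ^ (p.1 + 1)) x = (α ^ p.1) (α x) := by
      rw [zpow_add_one]
      rfl
    rw [this]

end Pool.Agent.CZ
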